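import Pool.Agent.Helper95.RK.DefsK

/-!
# Semipositive canonical bundles of constant rank: definitions for the front end

Internal definitions. `M` is a complex manifold of dimension `b + k`, the curvature of the canonical
metric `v` is semipositive with `k`-dimensional kernel at every point.
-/

open Complex Metric Set Filter Topology MeasureTheory
open scoped ContDiff ComplexConjugate ComplexOrder Manifold Matrix

namespace Pool.Agent.Helper15.RK

open Pool.Agent.Helper95.Lin Pool.Agent.Helper16.Abund Pool.Agent.Helper92.Orb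
  Pool.Agent.Helper10.SP Pool.Agent.Helper95.RK

universe u v

/-! ## Manifold level -/

section manifold

/-- The square of the length (for the metric `g`) of the vector field which in the parametrization
`ψ` is given by `σ`. -/
noncomputable def sqn (n : ℕ) {M : Type*} [TopologicalSpace M] [ChartedSpace (Fin n → ℂ) M]
    (g : M → Matrix (Fin n) (Fin n) ℂ) (ψ : Cn n → M) (σ : Cn n → Cn n) (z : Cn n) : ℝ :=
  (herm (g (ψ z)) (dvec n ψ z (σ z)) (dvec n ψ z (σ z))).re

/-- The bisectional curvature of the Chern connection of the Hermitian metric `g` is nonpositive on the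
kernel of the curvature of `v`: for every local holomorphic vector field `σ` and every point `z` where
`σ` is in the kernel, the Levi form of the square of the length of `σ` at `z` is nonnegative on the
kernel. -/
def GNeg (n : ℕ) (M : Type*) [TopologicalSpace M] [ChartedSpace (Fin n → ℂ) M]
    (g : M → Matrix (Fin n) (Fin n) ℂ) (v : M → ℝ) : Prop :=
  ∀ (V : Set (Cn n)) (ψ : Cn n → M), Par n ψ V → ∀ σ : Cn n → Cn n, DifferentiableOn ℂ σ V →
    ∀ z ∈ V, lev (lpot n v ψ) z (σ z) = 0 → ∀ e, lev (lpot n v ψ) z e = 0 →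
      0 ≤ lev (sqn n g ψ σ) z e

/-- The holomorphic sectional curvature of the Hermitian metric `g` is nonpositive on the kernel of the
curvature of `v`: for every local holomorphic vector field `σ` and every point `z` where `σ` is in the
kernel, the Levi form of the square of the length of `σ` at `z` is nonnegative in the direction of
`σ`. -/
def HNeg (n : ℕ) (M : Type*) [TopologicalSpace M] [ChartedSpace (Fin n → ℂ) M]
    (g : M → Matrix (Fin n) (Fin n) ℂ) (v : M → ℝ) : Prop :=
  ∀ (V : Set (Cn n)) (ψ : Cn n → M), Par n ψ V → ∀ σ : Cn n → Cn n, DifferentiableOn ℂ σ V →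
    ∀ z ∈ V, lev (lpot n v ψ) z (σ z) = 0 → 0 ≤ lev (sqn n g ψ σ) z (σ z)

/-- The hypothesis of the front end: `g` is an invariant Hermitian metric with nonpositive bisectional
curvature on the kernel, or an invariant Kähler metric with nonpositive holomorphic sectional
curvature on the kernel. -/
def FrontHyp (b k : ℕ) (G : Type u) (M : Type v) [Group G] [MulAction G M] [TopologicalSpace M]
    [ChartedSpace (Fin (b + k) → ℂ) M] (g : M → Matrix (Fin (b + k)) (Fin (b + k)) ℂ)
    (v : M → ℝ) : Prop :=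
  HermMetric (b + k) M g ∧ (∀ γ : G, InvMetric (b + k) g (fun y : M => γ • y)) ∧
    (GNeg (b + k) M g v ∨ (KahlerMetric (b + k) M g ∧ HNeg (b + k) M g v))

end manifold

/-- FRONT. The conclusion of the front end. -/
def S_FRONT : Prop := ∀ {b k : ℕ} {G : Type u} {M : Type v} [Group G] [MulAction G M]
  [TopologicalSpace M] [T2Space M] [ConnectedSpace M] [ChartedSpace (Fin (b + k) → ℂ) M]
  [IsManifold 𝓘(ℂ, Fin (b + k) → ℂ) ω M] {h g : M → Matrix (Fin (b + k)) (Fin (b + k)) ℂ}
  {v : M → ℝ}, 0 < k → DataK b k G M h v → FrontHyp b k G M g v → FlatFol b k G M g v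

/-! ## Kernel frames -/

/-- Smooth frames of the kernel of the Levi form: the kernel of the Levi matrix of `Φ` at `x ∈ W` has
the basis `v α x`, normalized by the linear map `L`; `w` is a basis of the kernel of `L`. -/
structure KFr {b k : ℕ} (Φ : Cn (b + k) → ℝ) (W : Set (Cn (b + k))) (L : Cn (b + k) →ₗ[ℂ] Cn k)
    (w : Fin b → Cn (b + k)) (v : Fin k → Cn (b + k) → Cn (b + k)) : Prop where
  isOpen : IsOpen W
  smP : ContDiffOn ℝ ∞ Φ W
  psd : ∀ x ∈ W, ∀ e, 0 ≤ lev Φ x e
  smv : ∀ α, ContDiffOn ℝ ∞ (v α) W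
  norm : ∀ x ∈ W, ∀ α, L (v α x) = Pi.single α 1
  ker : ∀ x ∈ W, ∀ α j, ∑ i, LM Φ x i j * v α x i = 0
  only : ∀ x ∈ W, ∀ e, lev Φ x e = 0 → e = ∑ α, L e α • v α x
  lin : LinearIndependent ℂ w
  Lw : ∀ i, L (w i) = 0

/-- The Gram matrix of the frame `v` for the matrix function `g`. -/
noncomputable def gram {n k : ℕ} (g : Cn n → Matrix (Fin n) (Fin n) ℂ)
    (v : Fin k → Cn n → Cn n) (x : Cn n) : Matrix (Fin k) (Fin k) ℂ :=
  Matrix.of fun α β => hermi (g x) (v α x) (v β x)

/-- The Levi determinant on the transversal basis `w`. -/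
noncomputable def mdet {n b : ℕ} (Φ : Cn n → ℝ) (w : Fin b → Cn n) (x : Cn n) : ℂ :=
  Matrix.det (Matrix.of fun i j : Fin b => hermi (LM Φ x) (w i) (w j))

/-- The matrix with columns `w`, `v`. -/
noncomputable def PM {b k : ℕ} (w : Fin b → Cn (b + k)) (v : Fin k → Cn (b + k)) :
    Matrix (Fin (b + k)) (Fin (b + k)) ℂ :=
  Matrix.of fun i j => Fin.append w v j i

/-- The density `‖det (w, v)‖⁻² · mdet · det (gram)`: the coefficient of `ω_H^k ∧ θ^b`. -/
noncomputable def dens {b k : ℕ} (Φ : Cn (b + k) → ℝ)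
    (H : Cn (b + k) → Matrix (Fin (b + k)) (Fin (b + k)) ℂ) (w : Fin b → Cn (b + k))
    (v : Fin k → Cn (b + k) → Cn (b + k)) (x : Cn (b + k)) : ℝ :=
  (mdet Φ w x).re * (gram H v x).det.re / ‖(PM w fun α => v α x).det‖ ^ 2

/-- `D_α D̄_β f` -/
noncomputable def DD {n k : ℕ} (v : Fin k → Cn n → Cn n) (α β : Fin k) (f : Cn n → ℂ) (x : Cn n) :
    ℂ := Dv (v α) (Dvb (v β) f) x

/-- The leafwise curvature of the metric `g` in the frame `v`. -/
noncomputable def CRV {n k : ℕ} (g : Cn n → Matrix (Fin n) (Fin n) ℂ)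
    (v : Fin k → Cn n → Cn n) (x : Cn n) (α β γ δ : Fin k) : ℂ :=
  - DD v α β (fun y => gram g v y γ δ) x + ∑ p, ∑ q, Dv (v α) (fun y => gram g v y γ q) x *
    (gram g v x)⁻¹ q p * Dvb (v β) (fun y => gram g v y p δ) x

/-- The leafwise torsion of the metric `g` in the frame `v`. -/
noncomputable def TRN {n k : ℕ} (g : Cn n → Matrix (Fin n) (Fin n) ℂ)
    (v : Fin k → Cn n → Cn n) (x : Cn n) (α γ δ : Fin k) : ℂ :=
  Dv (v α) (fun y => gram g v y γ δ) x - Dv (v γ) (fun y => gram g v y α δ) x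

/-- The leafwise Levi matrix of the function `u` in the frame `v`, as a matrix such that
`tr ((gram H v)⁻¹ * LF u)` is the leafwise trace. -/
noncomputable def LF {n k : ℕ} (v : Fin k → Cn n → Cn n) (u : Cn n → ℝ) (x : Cn n) :
    Matrix (Fin k) (Fin k) ℂ := Matrix.of fun α β => DD v α β (fun y => ((u y : ℝ) : ℂ)) x

/-! ## The data on an étale relation -/

/-- The square of the length of the vector field `σ`. -/
noncomputable def sqT {n : ℕ} (g : Cn n → Matrix (Fin n) (Fin n) ℂ) (σ : Cn n → Cn n) (x : Cn n) :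
    ℝ := (hermi (g x) (σ x) (σ x)).re

/-- The curvature hypothesis, first version (Griffiths). -/
def CvG {n : ℕ} (Φ : Cn n → ℝ) (g : Cn n → Matrix (Fin n) (Fin n) ℂ) (T : Set (Cn n)) : Prop :=
  ∀ σ : Cn n → Cn n, Differentiable ℂ σ → ∀ x ∈ T, lev Φ x (σ x) = 0 →
    ∀ e, lev Φ x e = 0 → 0 ≤ lev (sqT g σ) x e

/-- The curvature hypothesis, second version (holomorphic sectional curvature). -/
def CvH {n : ℕ} (Φ : Cn n → ℝ) (g : Cn n → Matrix (Fin n) (Fin n) ℂ) (T : Set (Cn n)) : Prop :=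
  ∀ σ : Cn n → Cn n, Differentiable ℂ σ → ∀ x ∈ T, lev Φ x (σ x) = 0 →
    0 ≤ lev (sqT g σ) x (σ x)

/-- The quadratic form of the second derivatives of the Gram matrix: `D_c D̄_c G(s,s) + 2 Re D̄_c G(a,s)
+ G(a,a)`. -/
noncomputable def Qcv {n k : ℕ} (g : Cn n → Matrix (Fin n) (Fin n) ℂ)
    (v : Fin k → Cn n → Cn n) (x : Cn n) (c s a : Cn k) : ℝ :=
  (∑ α, ∑ β, ∑ γ, ∑ δ, c α * conj (c β) * s γ * conj (s δ) *
    DD v α β (fun y => gram g v y γ δ) x).re +
  2 * (∑ β, ∑ γ, ∑ δ, conj (c β) * a γ * conj (s δ) *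
    Dvb (v β) (fun y => gram g v y γ δ) x).re +
  (∑ γ, ∑ δ, a γ * conj (a δ) * gram g v x γ δ).re

/-- The global function `log (ω_g^k ∧ θ^b / Ω)`, in terms of frames. -/
noncomputable def uf {b k : ℕ} (Φ : Cn (b + k) → ℝ)
    (g : Cn (b + k) → Matrix (Fin (b + k)) (Fin (b + k)) ℂ) (w : Fin b → Cn (b + k))
    (v : Fin k → Cn (b + k) → Cn (b + k)) (x : Cn (b + k)) : ℝ :=
  Real.log (dens Φ g w v x) - Φ x

/-- The data on an étale relation: an invariant Kähler metric `H`, an invariant canonical metric with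
potential `Φ` whose curvature has `k`-dimensional kernel, and an invariant Hermitian metric `g`. -/
structure FrT {b k : ℕ} (T : Set (Cn (b + k))) {G : Type u} [Group G]
    (R : G → Cn (b + k) → Cn (b + k) → Prop)
    (H : Cn (b + k) → Matrix (Fin (b + k)) (Fin (b + k)) ℂ) (Φ : Cn (b + k) → ℝ)
    (g : Cn (b + k) → Matrix (Fin (b + k)) (Fin (b + k)) ℂ) : Prop where
  posk : 0 < k
  ket : KEt T R H
  smP : ContDiffOn ℝ ∞ Φ T
  pot : ∀ U τ, Arr R U τ → ∀ x ∈ U, Φ x = Φ (τ x) + Real.log (‖(fderiv ℂ τ x).det‖ ^ 2)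
  rank : CorankK k Φ T
  posg : ∀ x ∈ T, (g x).PosDef
  smg : ∀ i j, ContDiffOn ℝ ∞ (fun x => g x i j) T
  ginv : ∀ U τ, Arr R U τ → ∀ x ∈ U, ∀ u u',
    hermi (g (τ x)) (fderiv ℂ τ x u) (fderiv ℂ τ x u') = hermi (g x) u u'

end Pool.Agent.Helper15.RK
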