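import Pool.Agent.Helper15.RK.GoalsF
import Pool.Agent.Helper10.SP.Asm
import Pool.Agent.Helper38.RK.LIMK
import Pool.Agent.Helper14.RK.LAK
import Pool.Agent.Helper14.RK.TRP
import Pool.Agent.Helper14.RK.ALGG
import Pool.Agent.Helper2.RK.ALGH
import Pool.Agent.Helper14.RK.TAUP
import Pool.Agent.Helper81.RK.KFE
import Pool.Agent.Helper4.RK.KFB
import Pool.Agent.Helper58.RK.DERK
import Pool.Agent.Helper37.RK.LEVK
import Pool.Agent.Helper65.RK.LDM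
import Pool.Agent.Helper16.RK.LDG
import Pool.Agent.Helper94.RK.CVK
import Pool.Agent.Helper89.RK.EXG
import Pool.Agent.Helper16.RK.TORF
import Pool.Agent.Helper27.RK.KES
import Pool.Agent.Helper93.RK.BNDK
import Pool.Agent.Helper52.RK.ST1
import Pool.Agent.Helper74.RK.ST2A
import Pool.Agent.Helper52.RK.ST2
import Pool.Agent.Helper55.RK.POSK
import Pool.Agent.Helper97.RK.UGL
import Pool.Agent.Helper97.RK.FRA1
import Pool.Agent.Helper82.RK.FRA2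
import Pool.Agent.Helper94.RK.FRB
import Pool.Agent.Helper49.RK.FRC
import Pool.Agent.Helper9.RK.MTK
import Pool.Agent.Helper89.RK.CVT
import Pool.Agent.Helper40.RK.FRD
import Pool.Agent.Helper64.RK.STRK
import Pool.Agent.Helper56.RK.FRE
import Pool.Agent.Helper45.RK.FRF

/-! Assembly of the front end (section A'): `t_FRONT : S_FRONT`. -/

namespace Pool.Agent.Helper15.RK.Asm

open Pool.Agent.Helper10.SP.Asm

universe u v

theorem t_LIMK : S_LIMK := Pool.Agent.Helper38.RK.limk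
theorem t_LAK : S_LAK := Pool.Agent.Helper14.RK.lak
theorem t_TRP : S_TRP := Pool.Agent.Helper14.RK.trp
theorem t_ALGG : S_ALGG := Pool.Agent.Helper14.RK.algg t_TRP
theorem t_ALGH : S_ALGH := Pool.Agent.Helper2.RK.algh
theorem t_TAUP : S_TAUP := Pool.Agent.Helper14.RK.taup
theorem t_KFE : S_KFE := Pool.Agent.Helper81.RK.kfe t_LMF
theorem t_KFB : S_KFB := Pool.Agent.Helper4.RK.kfb t_LMF t_LIMK
theorem t_DERK : S_DERK := Pool.Agent.Helper58.RK.derk t_WIRT t_LMF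
theorem t_LEVK : S_LEVK := Pool.Agent.Helper37.RK.levk t_WIRT t_DERK
theorem t_LDM : S_LDM := Pool.Agent.Helper65.RK.ldm t_WIRT t_LMF t_KFB t_DERK t_LEVK
theorem t_LDG : S_LDG := Pool.Agent.Helper16.RK.ldg t_WIRT t_KFB t_DERK
theorem t_CVK : S_CVK := Pool.Agent.Helper94.RK.cvk t_WIRT t_LMF t_KFB t_DERK
theorem t_EXG : S_EXG := Pool.Agent.Helper89.RK.exg t_WIRT t_DERK
theorem t_TORF : S_TORF := Pool.Agent.Helper16.RK.torf t_WIRT t_DERK t_LDG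
theorem t_KES : S_KES.{u} := Pool.Agent.Helper27.RK.kes t_WIRT t_WCH t_LMF
theorem t_BNDK : S_BNDK.{u} := Pool.Agent.Helper93.RK.bndk t_LMF
theorem t_ST1 : S_ST1.{u} :=
  Pool.Agent.Helper52.RK.st1 t_LMF t_LIMK t_KFE t_KFB t_LEVK t_KES t_BNDK t_DETI t_LMID
theorem t_ST2A : S_ST2A.{u} := Pool.Agent.Helper74.RK.st2a t_WIRT t_WCH t_DETI t_DIVC
theorem t_ST2 : S_ST2.{u} :=
  Pool.Agent.Helper52.RK.st2 t_WIRT t_LMF t_LIMK t_KFE t_KFB t_EXG t_KES t_BNDK t_DETI t_ST2A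
theorem t_POSK : S_POSK.{u} := Pool.Agent.Helper55.RK.posk
theorem t_UGL : S_UGL.{u} := Pool.Agent.Helper97.RK.ugl t_LMF t_LIMK t_KFE t_KFB t_KES
theorem t_FRA1 : S_FRA1.{u} :=
  Pool.Agent.Helper97.RK.fra1 t_WIRT t_LMF t_LAK t_TRP t_ALGG t_KFE t_KFB t_DERK t_LDM t_LDG
    t_CVK t_PUE t_ST1 t_POSK t_UGL
theorem t_FRA2 : S_FRA2.{u} :=
  Pool.Agent.Helper82.RK.fra2 t_WIRT t_LMF t_LAK t_TRP t_ALGH t_KFE t_KFB t_DERK t_LDM t_LDG
    t_CVK t_EXG t_PUE t_ST1 t_POSK t_UGL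
theorem t_FRB : S_FRB.{u} :=
  Pool.Agent.Helper94.RK.frb t_WIRT t_TRP t_KFE t_KFB t_LDM t_LDG t_PUE t_ST1 t_POSK t_UGL
theorem t_FRC : S_FRC.{u} :=
  Pool.Agent.Helper49.RK.frc t_KFE t_KFB t_TAUP t_TORF t_PUE t_ST2 t_POSK
theorem t_MTK : S_MTK.{u, v} := Pool.Agent.Helper9.RK.mtk
theorem t_CVT : S_CVT.{v} := Pool.Agent.Helper89.RK.cvt
theorem t_FRD : S_FRD.{u, v} :=
  Pool.Agent.Helper40.RK.frd t_WIRT t_MTK t_CVT t_FRA1 t_FRA2 t_FRB t_FRC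
theorem t_STRK : S_STRK := Pool.Agent.Helper64.RK.strk
theorem t_FRE : S_FRE.{u, v} :=
  Pool.Agent.Helper56.RK.fre t_WCH t_LMF t_KFE t_DERK t_FRD t_STRK
theorem t_FRF : S_FRF.{u, v} :=
  Pool.Agent.Helper45.RK.frf t_WIRT t_LMF t_KFB t_DERK t_FRD
theorem t_FRONT : S_FRONT.{u, v} := front t_FRE t_FRF

end Pool.Agent.Helper15.RK.Asm
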