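import Pool.Agent.Helper15.RK.DefsA

/-!
# Front end: nonpositive curvature on the kernel implies that the kernel is a holomorphic foliation
# with flat leaves

Conventions: `cd`, `cdb` are twice the Wirtinger derivatives, `LM Φ` is four times the Levi matrix,
`hermi A u v = ∑ A i j u_i conj (v_j)`, the kernel is `∑ i, LM Φ i j * e_i = 0`. The packets of
`Helper10/SP` (WIRT, WCH, LMF, ARRB, LFIN, ASI, PUE, SWAP, DETI, DIVC, LMID, PARB) are proved and may be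
used as hypotheses `(h : S_...)`.
-/

open Complex Metric Set Filter Topology MeasureTheory
open scoped ContDiff ComplexConjugate ComplexOrder Manifold Matrix

namespace Pool.Agent.Helper15.RK

open Pool.Agent.Helper95.Lin Pool.Agent.Helper16.Abund Pool.Agent.Helper92.Orb
  Pool.Agent.Helper10.SP Pool.Agent.Helper95.RK

universe u v

/-! ## A. Linear algebra -/

/-- LIMK. The limit of `H + s θ`.
PROOF. `L v_α = e_α`, `L w_i = 0` and `w` independent: `(w, v)` is a basis of `ℂᵇ⁺ᵏ`, so `P := PM w v` is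
invertible. `θ` kills `v_α` on both sides (`θ` Hermitian). `θ_w := (hermi θ (w_i) (w_j))` is positive
definite: it is semidefinite, and for `e = ∑ c_i w_i` with `hermi θ e e = 0`: `e = ∑ (L e)_α v_α = 0`.
`M_s := Pᵗ (H + sθ) P̄` has the entries `hermi (H + sθ) p_a p_b`: in blocks `[[A + s θ_w, B], [Bᴴ, 𝒢]]`,
`𝒢 = (hermi H v_α v_β)`. Multiply the first `b` rows by `1/s`: `N_s = diag(1/s, 1) M_s → N := [[θ_w, 0],
[Bᴴ, 𝒢]]`, `det N = det θ_w det 𝒢 ≠ 0`. So `det M_s / s^b = det N_s → det N` and `M_s⁻¹ = N_s⁻¹ diag(1/s, 1) →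
N⁻¹ diag(0, 1) = [[0,0],[0,𝒢⁻¹]]`. Finally `det (H + sθ) = det M_s / |det P|²`, `(H + sθ)⁻¹ = P̄ M_s⁻¹ Pᵗ`. -/
def S_LIMK : Prop := ∀ {b k : ℕ} (H θ : Matrix (Fin (b + k)) (Fin (b + k)) ℂ)
  (L : Cn (b + k) →ₗ[ℂ] Cn k) (w : Fin b → Cn (b + k)) (v : Fin k → Cn (b + k)), H.PosDef →
  θ.PosSemidef → (∀ α, L (v α) = Pi.single α 1) → (∀ α j, ∑ i, θ i j * v α i = 0) →
  (∀ e, hermi θ e e = 0 → e = ∑ α, L e α • v α) → LinearIndependent ℂ w → (∀ i, L (w i) = 0) →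
  (PM w v).det ≠ 0 ∧ (Matrix.of fun i j : Fin b => hermi θ (w i) (w j)).PosDef ∧
  (Matrix.of fun α β : Fin k => hermi H (v α) (v β)).PosDef ∧
  Tendsto (fun s : ℝ => (H + (s : ℂ) • θ).det / (s : ℂ) ^ b) atTop
    (𝓝 ((Matrix.of fun i j : Fin b => hermi θ (w i) (w j)).det *
      (Matrix.of fun α β : Fin k => hermi H (v α) (v β)).det / ((‖(PM w v).det‖ ^ 2 : ℝ) : ℂ))) ∧
  ∀ j l, Tendsto (fun s : ℝ => (H + (s : ℂ) • θ)⁻¹ j l) atTop
    (𝓝 (∑ α, ∑ β, conj (v α j) * (Matrix.of fun α β : Fin k => hermi H (v α) (v β))⁻¹ α β *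
      v β l))

/-- LAK. Linear algebra of the second fundamental form.
PROOF. (1) `X conj(v_α) = 0`: for `e := X conj(v_α)`, `(Hᵗ e)_j = ∑ l (HᵗX)_jl conj(v_l) = ∑ l (HᵗX)_lj conj(v_l) =
∑ i X_ij ∑ l H_il conj(v_l) = 0` (conjugate of the kernel relation, `H` Hermitian), so `e = ∑ (L e)_α v_α`,
and `L e = ∑ l conj(v_l) L(X_·l) = 0`. (2) Choose a basis `w` of `ker L` (`b = n - k` vectors) and `P = (w, v)`,
`X' := P⁻¹ X P̄`, `H' := Pᵗ H P̄`: `tr(X X̄) = tr(X' X̄')`, `H'ᵗ X' = P̄ᵗ (Hᵗ X) P̄` is symmetric, `X'` is zero outside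
the `w`-block (columns of `X` are in `ker L = span w`; `X conj(v_α) = 0`), `H'` is zero outside the `w`-block,
where it is positive definite. For positive definite `A := H'ᵗ = Q Qᴴ` and `S = A X'` symmetric,
`Z := Q⁻¹ S (Q⁻¹)ᵗ` is symmetric and `tr(X' X̄') = tr(Z Zᴴ)` (see `S_LA` of `Helper10/SP/GoalsA.lean` and
`Pool.Agent.Helper63.SP.core2`). -/
def S_LAK : Prop := ∀ {n k : ℕ} (H : Matrix (Fin n) (Fin n) ℂ) (L : Cn n →ₗ[ℂ] Cn k)
  (v : Fin k → Cn n), H.PosSemidef → (∀ α, L (v α) = Pi.single α 1) →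
  (∀ α j, ∑ i, H i j * v α i = 0) →
  (∀ e, (∀ j, ∑ i, H i j * e i = 0) → e = ∑ α, L e α • v α) →
  ∀ X : Matrix (Fin n) (Fin n) ℂ, (∀ l, L (fun i => X i l) = 0) → (Hᵀ * X).IsSymm →
  (∀ α i, ∑ j, X i j * conj (v α j) = 0) ∧ (Matrix.trace (X * mc X)).im = 0 ∧
  0 ≤ (Matrix.trace (X * mc X)).re ∧ (Matrix.trace (X * mc X) = 0 → X = 0)

/-- TRP. Traces. PROOF. `A = Q Qᴴ`; `A⁻¹ = (Q⁻¹)ᴴ Q⁻¹`, `tr (A⁻¹ M) = tr (Q⁻¹ M (Q⁻¹)ᴴ)`, the trace of a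
positive semidefinite matrix; it vanishes only if the matrix does. The hypothesis on `M` gives
`M.PosSemidef` (`hermi M c c = xᴴ M x` for `x = conj c`; a complex matrix with real quadratic form is
Hermitian). -/
def S_TRP : Prop := ∀ {k : ℕ} (A M : Matrix (Fin k) (Fin k) ℂ), A.PosDef →
  (∀ c : Cn k, (hermi M c c).im = 0 ∧ 0 ≤ (hermi M c c).re) →
  (Matrix.trace (A⁻¹ * M)).im = 0 ∧ 0 ≤ (Matrix.trace (A⁻¹ * M)).re ∧
  ((Matrix.trace (A⁻¹ * M)).re = 0 → M = 0)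

/-- ALGG. From the quadratic form to the curvature, Griffiths case. Here `D1 α γ δ` stands for `D_α G_γδ`
and `D2 α β γ δ` for `D_α D̄_β G_γδ`. PROOF. Write `m_q := ∑ c_β s_δ D1 β δ q`. The hypothesis is
`0 ≤ Re D2(c,c̄,s,s̄) + 2 Re ∑ a_γ conj(m_γ) + Re ∑ G_γδ a_γ conj(a_δ)`; for `a := - m G⁻¹` (row vector) it reads
`0 ≤ Re D2(c,c̄,s,s̄) - m G⁻¹ mᴴ = - Re C(c,c̄,s,s̄)`: (1). (2) `∑ γ δ (G⁻¹) δ γ C α β γ δ` contracted with
`c_α conj(c_β)` is `∑_i C(c,c̄,s_i,s̄_i)` for a `G`-orthonormal basis `s_i` (`(G⁻¹) δ γ = ∑_i conj(s_i δ) s_i γ`), so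
it is `≤ 0`; the symmetry of `D2`, and of `D1` terms, makes all these numbers real. (3) If it is `0` then all
`C(c,c̄,s,s̄) = 0` for `G`-unit vectors `s` (complete `s` to an orthonormal basis, all terms are `≤ 0`), so
for all `s`, and `C = 0` by polarization in both pairs. (Diagonalization: it is enough to write
`G⁻¹ = ∑ conj(s_i) s_iᵗ`; for (3) use that `∑_i C(c,c̄,s_i,s̄_i) = 0` with all terms `≤ 0` for the basis
`s_i`, and apply `S_TRP` to the matrix `- C(c,c̄,·,·)`.) -/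
def S_ALGG : Prop := ∀ {k : ℕ} (G : Matrix (Fin k) (Fin k) ℂ) (D1 : Fin k → Fin k → Fin k → ℂ)
  (D2 C : Fin k → Fin k → Fin k → Fin k → ℂ), G.PosDef →
  (∀ α β γ δ, conj (D2 α β γ δ) = D2 β α δ γ) →
  (∀ α β γ δ, C α β γ δ = - D2 α β γ δ + ∑ p, ∑ q, D1 α γ q * G⁻¹ q p * conj (D1 β δ p)) →
  (∀ c s a : Cn k, 0 ≤ (∑ α, ∑ β, ∑ γ, ∑ δ, c α * conj (c β) * s γ * conj (s δ) *
      D2 α β γ δ).re + 2 * (∑ β, ∑ γ, ∑ δ, conj (c β) * a γ * conj (s δ) * conj (D1 β δ γ)).re +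
      (∑ γ, ∑ δ, a γ * conj (a δ) * G γ δ).re) →
  (∀ c : Cn k, (hermi (Matrix.of fun α β => ∑ γ, ∑ δ, G⁻¹ δ γ * C α β γ δ) c c).im = 0 ∧
    (hermi (Matrix.of fun α β => ∑ γ, ∑ δ, G⁻¹ δ γ * C α β γ δ) c c).re ≤ 0) ∧
  ((∀ α β, ∑ γ, ∑ δ, G⁻¹ δ γ * C α β γ δ = 0) → ∀ α β γ δ, C α β γ δ = 0)

/-- ALGH. From the quadratic form to the curvature, Kähler case (holomorphic sectional curvature).
PROOF. `D1` and `D2` have the Kähler symmetries, so `C α β γ δ = C γ β α δ = C α δ γ β` and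
`conj (C α β γ δ) = C β α δ γ`. As in ALGG (`c = s`) `f(s) := C(s,s̄,s,s̄) ≤ 0` (real). For a `G`-orthonormal basis
`q_i` put `R_{ijlm} := C(q_i,q̄_j,q_l,q̄_m)`. Average of `f(∑ ε_i q_i)` over `ε ∈ {1, i, -1, -i}^k`: only the terms
where the unbarred indices are a permutation of the barred ones survive: `∑_i R_iiii + ∑_{i≠l} (R_iill +
R_illi) = 2 ∑_{i,l} R_iill - ∑_i R_iiii` (if `k = 1`, `f = R_1111`). So `2 S = average + ∑_i f(q_i) ≤ 0`, where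
`S = ∑_{i,l} R_iill = ∑ (G⁻¹) β α (G⁻¹) δ γ C α β γ δ`. If `S = 0` then `f(q_i) = 0` for every vector `q_i` of every
`G`-orthonormal basis, so `f = 0`, and by polarization and the symmetries `C = 0` (`f(s + t s')` as a
polynomial in `t`, `t̄`: the coefficients of `t`, `t̄`, ... give `C(s,s̄,s,s̄') = 0` etc.; or: `C(x,ȳ,z,w̄)` is
symmetric in `x, z` and in `y, w`, and a Hermitian form on the symmetric square which vanishes on all
squares `s ⊗ s` vanishes by complex polarization). -/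
def S_ALGH : Prop := ∀ {k : ℕ} (G : Matrix (Fin k) (Fin k) ℂ) (D1 : Fin k → Fin k → Fin k → ℂ)
  (D2 C : Fin k → Fin k → Fin k → Fin k → ℂ), G.PosDef →
  (∀ α β γ δ, conj (D2 α β γ δ) = D2 β α δ γ) → (∀ α γ δ, D1 α γ δ = D1 γ α δ) →
  (∀ α β γ δ, D2 α β γ δ = D2 γ β α δ) →
  (∀ α β γ δ, C α β γ δ = - D2 α β γ δ + ∑ p, ∑ q, D1 α γ q * G⁻¹ q p * conj (D1 β δ p)) →
  (∀ s a : Cn k, 0 ≤ (∑ α, ∑ β, ∑ γ, ∑ δ, s α * conj (s β) * s γ * conj (s δ) *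
      D2 α β γ δ).re + 2 * (∑ β, ∑ γ, ∑ δ, conj (s β) * a γ * conj (s δ) * conj (D1 β δ γ)).re +
      (∑ γ, ∑ δ, a γ * conj (a δ) * G γ δ).re) →
  (∑ α, ∑ β, ∑ γ, ∑ δ, G⁻¹ β α * G⁻¹ δ γ * C α β γ δ).im = 0 ∧
  (∑ α, ∑ β, ∑ γ, ∑ δ, G⁻¹ β α * G⁻¹ δ γ * C α β γ δ).re ≤ 0 ∧
  ((∑ α, ∑ β, ∑ γ, ∑ δ, G⁻¹ β α * G⁻¹ δ γ * C α β γ δ).re = 0 → ∀ α β γ δ, C α β γ δ = 0)

/-- TAUP. Positivity for the torsion. PROOF. `(H⁻¹) β α = ∑_i conj(s_i β) s_i α` for an `H`-orthonormal basis; the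
sum is `∑_{i,j} ∑_{p,q} t_q (G⁻¹) q p conj(t_p)`, `t_q = ∑ s_i α s_j γ τ α γ q`, and `G⁻¹` is positive definite
(`x ↦ ∑ x_q (G⁻¹) q p conj(x_p)`). If the sum vanishes all `t` vanish, and the `s_i` are a basis. -/
def S_TAUP : Prop := ∀ {k : ℕ} (H G : Matrix (Fin k) (Fin k) ℂ) (τ : Fin k → Fin k → Fin k → ℂ),
  H.PosDef → G.PosDef →
  0 ≤ (∑ α, ∑ β, ∑ γ, ∑ δ, H⁻¹ β α * H⁻¹ δ γ *
    ∑ p, ∑ q, τ α γ q * G⁻¹ q p * conj (τ β δ p)).re ∧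
  ((∑ α, ∑ β, ∑ γ, ∑ δ, H⁻¹ β α * H⁻¹ δ γ *
    ∑ p, ∑ q, τ α γ q * G⁻¹ q p * conj (τ β δ p)).re = 0 → ∀ α γ q, τ α γ q = 0)

/-! ## B. Kernel frames -/

/-- KFE. Kernel frames exist locally. USES: LMF.
PROOF. `S :=` the kernel at `p`, of dimension `k`; `L` linear with `L` restricted to `S` bijective (a
projection to `S` in a basis), `w` a basis of `ker L`, `v⁰_α ∈ S` with `L v⁰_α = e_α`. The matrix
`θ_w(x) = (hermi (LM Φ x) (w_i) (w_j))` is positive definite at `p` (`S ∩ ker L = 0`), so invertible and positive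
definite near `p` (open condition, continuity); there define `c_α(x)` by `∑_i c_αi θ_w(x)_ij =
hermi (LM Φ x) (v⁰_α) (w_j)` (smooth by Cramer's rule) and `v_α := v⁰_α - ∑ c_αi w_i`. `L v_α = e_α`.
`hermi (LM Φ x) (v_α) (w_j) = 0` for all `j`. The kernel `S_x` of `LM Φ x` has dimension `k` and meets `span w` in
`0`, so `ℂⁿ = S_x + span w`; write `v_α = s + w'`: `hermi θ w' w_j = 0`, so `w' = 0`, `v_α ∈ S_x`. The `v_α(x)` are
independent (apply `L`), so they are a basis of `S_x`; for `e ∈ S_x` compare `L`. Kernel vectors of a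
semidefinite form: `lev Φ x e = 0` iff `hermi (LM Φ x) e e = 0` iff `∑ i, LM Φ x i j * e i = 0` for all `j`
(Cauchy-Schwarz). -/
def S_KFE : Prop := ∀ {b k : ℕ} (W : Set (Cn (b + k))), IsOpen W → ∀ Φ : Cn (b + k) → ℝ,
  ContDiffOn ℝ ∞ Φ W → CorankK k Φ W → ∀ p ∈ W, ∃ (W' : Set (Cn (b + k)))
  (L : Cn (b + k) →ₗ[ℂ] Cn k) (w : Fin b → Cn (b + k)) (v : Fin k → Cn (b + k) → Cn (b + k)),
    W' ⊆ W ∧ p ∈ W' ∧ KFr Φ W' L w v

/-- KFB. Basic facts on kernel frames. USES: LMF (and LIMK for positivity if convenient).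
PROOF. `mdet`: determinant of the positive definite matrix `θ_w` (see LIMK), smooth as a polynomial in
smooth functions. `v_α(x) - v_α(y) ∈ ker L = span w` (dimension), so the determinants of `PM` agree (add
multiples of the first `b` columns to the others). `lev Φ x (∑ c_α v_α) = hermi (LM Φ x) e e = 0`. The Gram
matrix of a positive definite matrix on independent vectors is positive definite. -/
def S_KFB : Prop := ∀ {b k : ℕ} {Φ : Cn (b + k) → ℝ} {W : Set (Cn (b + k))}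
  {L : Cn (b + k) →ₗ[ℂ] Cn k} {w : Fin b → Cn (b + k)} {v : Fin k → Cn (b + k) → Cn (b + k)},
  KFr Φ W L w v →
  (∀ x ∈ W, (mdet Φ w x).im = 0 ∧ 0 < (mdet Φ w x).re) ∧ ContDiffOn ℝ ∞ (mdet Φ w) W ∧
  (∀ x ∈ W, (PM w fun α => v α x).det ≠ 0) ∧
  (∀ x ∈ W, ∀ y ∈ W, (PM w fun α => v α x).det = (PM w fun α => v α y).det) ∧
  (∀ x ∈ W, ∀ c : Cn k, lev Φ x (∑ α, c α • v α x) = 0) ∧
  ∀ g : Cn (b + k) → Matrix (Fin (b + k)) (Fin (b + k)) ℂ,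
    (∀ i j, ContDiffOn ℝ ∞ (fun x => g x i j) W) →
    (∀ α β, ContDiffOn ℝ ∞ (fun x => gram g v x α β) W) ∧
    ((∀ x ∈ W, (g x).PosDef) → ∀ x ∈ W, (gram g v x).PosDef ∧ (gram g v x).det.im = 0 ∧
      0 < (gram g v x).det.re)

/-- DERK. The structure equations. USES: WIRT, LMF. (Same as `S_DER` of `Helper10/SP/GoalsA.lean`, with
several fields.)
PROOF. (1) Differentiate `∑ i, LM i j * v_α i = 0` by `cdb l`; `cdb l (LM i j) = cdb j (LM i l)` gives the symmetry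
of `∑ i, LM i j (T_α) i l` in `j, l`. (2) Contract with `conj(v_β l)`: `∑_l (LMᵗ T_α) j l conj(v_β l) =
∑_l (LMᵗ T_α) l j conj(v_β l) = ∑_i (∑_l LM i l conj(v_β l)) (T_α) i j = 0`, so `e := (Dvb v_β (v_α i))_i` is in the kernel,
`e = ∑ (L e)_γ v_γ`, and `L e = Dvb v_β (L v_α) = 0` (`L` linear, `L v_α` constant). (3) Differentiate the kernel
relation of `v_β` along `D_α` and subtract: `∑ i LM i j (D_α v_β - D_β v_α) i = - ∑ i (D_α LM i j) v_β i + ∑ i (D_β LM i j)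
v_α i = 0` because `∑ i m, v_α m (cd m (LM i j)) v_β i` is symmetric (`cd m (LM i j) = cd i (LM m j)`); again `L` of the
difference vanishes. (4) `[D_α, D̄_β] f = ∑ (D_α conj(v_β j)) cdb j f - ∑ (D̄_β v_α j) cd j f = 0` since
`D_α conj(v_β j) = conj(D̄_α v_β j)`; `[D_α, D_β] f = ∑ (D_α v_β j - D_β v_α j) cd j f = 0`. (5) `D̄_β (cd l (v_α j)) =
cd l (D̄_β (v_α j)) - ∑ m (cd l (conj (v_β m))) cdb m (v_α j) = - ∑ m (T_α) j m conj((T_β) m l)`. (6)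
`D_α (LM j l) = ∑ m v_α m cd m (LM j l) = ∑ m v_α m cd j (LM m l) = cd j (0) - ∑ m (cd j (v_α m)) LM m l`. (7) derivatives
of the constants `L (v_α)`. -/
def S_DERK : Prop := ∀ {b k : ℕ} {Φ : Cn (b + k) → ℝ} {W : Set (Cn (b + k))}
  {L : Cn (b + k) →ₗ[ℂ] Cn k} {w : Fin b → Cn (b + k)} {v : Fin k → Cn (b + k) → Cn (b + k)},
  KFr Φ W L w v → ∀ x ∈ W,
  (∀ α, ((LM Φ x)ᵀ * Tm (v α) x).IsSymm) ∧
  (∀ α β j, Dvb (v β) (fun y => v α y j) x = 0) ∧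
  (∀ α β j, Dv (v α) (fun y => v β y j) x = Dv (v β) (fun y => v α y j) x) ∧
  (∀ f : Cn (b + k) → ℂ, ContDiffOn ℝ ∞ f W → ∀ α β,
    Dv (v α) (Dvb (v β) f) x = Dvb (v β) (Dv (v α) f) x ∧
    Dv (v α) (Dv (v β) f) x = Dv (v β) (Dv (v α) f) x) ∧
  (∀ α β j l, Dvb (v β) (fun y => Bm (v α) y j l) x = - (Tm (v α) x * mc (Tm (v β) x)) j l) ∧
  (∀ α j l, Dv (v α) (fun y => LM Φ y j l) x = - ∑ m, Bm (v α) x m j * LM Φ x m l) ∧
  ∀ α l, L (fun j => Tm (v α) x j l) = 0 ∧ L (fun j => Bm (v α) x j l) = 0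

/-- LEVK. The Levi form along the kernel. USES: WIRT, DERK.
PROOF. `D_α D̄_β f = ∑ v_α i conj(v_β j) cd i (cdb j f) + ∑ (D_α conj(v_β j)) cdb j f`, the second sum vanishes
(`D_α conj(v_β j) = conj(D̄_α v_β j) = 0`). -/
def S_LEVK : Prop := ∀ {b k : ℕ} {Φ : Cn (b + k) → ℝ} {W : Set (Cn (b + k))}
  {L : Cn (b + k) →ₗ[ℂ] Cn k} {w : Fin b → Cn (b + k)} {v : Fin k → Cn (b + k) → Cn (b + k)},
  KFr Φ W L w v → ∀ f : Cn (b + k) → ℝ, ContDiffOn ℝ ∞ f W → ∀ x ∈ W, ∀ α β,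
    hermi (LM f x) (v α x) (v β x) = DD v α β (fun y => ((f y : ℝ) : ℂ)) x

/-- LDM. Logarithm of the transversal determinant, and of the potential. USES: WIRT, LMF, KFB, DERK,
LEVK.
PROOF. `DD v α β Φ = hermi (LM Φ x) (v_α) (v_β) = 0`. With `W = (w_i)` (`n × b` matrix) `θ_w = Wᵗ (LM Φ) W̄`;
DERK (6): `D_α (LM Φ) = - B_αᵗ (LM Φ)`, so `D_α θ_w = - (B_α W)ᵗ (LM Φ) W̄`; `L` kills the columns of `B_α`, so
`B_α W = W B'_α` with a `b × b` matrix `B'_α`, and `D_α θ_w = - B'_αᵗ θ_w`, `D_α (det θ_w) = - tr(B'_α) det θ_w` (Jacobi),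
`tr B'_α = tr B_α` (the image of `B_α` is in `ker L = span w`). So `D_α log mdet = - tr B_α`, and `D_α D̄_β log mdet =
D̄_β D_α log mdet = - D̄_β (tr B_α) = tr (T_α T̄_β)`. -/
def S_LDM : Prop := ∀ {b k : ℕ} {Φ : Cn (b + k) → ℝ} {W : Set (Cn (b + k))}
  {L : Cn (b + k) →ₗ[ℂ] Cn k} {w : Fin b → Cn (b + k)} {v : Fin k → Cn (b + k) → Cn (b + k)},
  KFr Φ W L w v → ∀ x ∈ W, ∀ α β, DD v α β (fun y => ((Φ y : ℝ) : ℂ)) x = 0 ∧
    DD v α β (fun y => ((Real.log (mdet Φ w y).re : ℝ) : ℂ)) x =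
      Matrix.trace (Tm (v α) x * mc (Tm (v β) x))

/-- LDG. Logarithm of the Gram determinant. USES: WIRT, KFB, DERK.
PROOF. `G := gram g v`, `G_δγ = conj(G_γδ)`, so `D̄_β G_γδ = conj (D_β G_δγ)`, `conj(D_α D̄_β G_γδ) = D̄_α D_β G_δγ =
D_β D̄_α G_δγ` (DERK (4)). `D̄_β log det G = tr (G⁻¹ D̄_β G)` (Jacobi), `D_α (G⁻¹) = - G⁻¹ (D_α G) G⁻¹`:
`D_α D̄_β log det G = tr(G⁻¹ D_α D̄_β G) - tr (G⁻¹ (D_α G) G⁻¹ (D̄_β G)) = - ∑ γ δ (G⁻¹) δ γ CRV α β γ δ`. -/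
def S_LDG : Prop := ∀ {b k : ℕ} {Φ : Cn (b + k) → ℝ} {W : Set (Cn (b + k))}
  {L : Cn (b + k) →ₗ[ℂ] Cn k} {w : Fin b → Cn (b + k)} {v : Fin k → Cn (b + k) → Cn (b + k)},
  KFr Φ W L w v → ∀ g : Cn (b + k) → Matrix (Fin (b + k)) (Fin (b + k)) ℂ,
  (∀ i j, ContDiffOn ℝ ∞ (fun x => g x i j) W) → (∀ x ∈ W, (g x).PosDef) → ∀ x ∈ W, ∀ α β,
    (∀ γ δ, Dvb (v β) (fun y => gram g v y γ δ) x =
      conj (Dv (v β) (fun y => gram g v y δ γ) x)) ∧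
    (∀ γ δ, conj (DD v α β (fun y => gram g v y γ δ) x) =
      DD v β α (fun y => gram g v y δ γ) x) ∧
    DD v α β (fun y => ((Real.log (gram g v y).det.re : ℝ) : ℂ)) x =
      - ∑ γ, ∑ δ, (gram g v x)⁻¹ δ γ * CRV g v x α β γ δ

/-- CVK. The curvature inequality in frames. USES: WIRT, LMF, KFB, DERK.
PROOF. Let `e := ∑ c_α v_α(x)`. If `c = 0` then `Qcv = Re G(a,a) ≥ 0` (semidefinite). Otherwise `e ≠ 0`; put
`X(y) := ∑ s_γ v_γ(y)`, `A := ∑ a_γ v_γ(x)`, and let `σ(y) := X(x) + Λ(y - x)`, `Λ` a complex linear map with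
`Λ e = (1/2)(A + D_e X)`, `D_e X := ∑ c_α D_α X (x)` (componentwise `Dv`). `σ` is entire, `lev Φ x (σ x) = 0`,
`lev Φ x e = 0` (KFB). For constant `e` put `∂_e f := ∑ e_i cd i f`, `∂̄_e f := ∑ conj(e_i) cdb i f` at `x`; then
`∂_e (σ j) = 2 (Λ e)_j = A_j + D_e X_j`, `∂̄_e (σ j) = 0`, `lev f x e = ∂_e ∂̄_e f` (LMF). So `lev (sqT g σ) x e =
Re [ (∂_e∂̄_e g_ij) X_i X̄_j + (∂̄_e g_ij) (A + D_e X)_i X̄_j + (∂_e g_ij) X_i conj((A + D_e X)_j) + g_ij (A + D_e X)_i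
conj((A + D_e X)_j) ]`. On the other hand for `G(s,s) = ∑ g_ij X_i X̄_j` (`D̄_β X_i = 0`, `D_α X̄_j = 0`, DERK; and
`D_α D̄_β X̄_j = D̄_β D_α X̄_j = 0`): `D_e D̄_e G(s,s) = (∂_e∂̄_e g_ij) X_i X̄_j + (∂̄_e g_ij)(D_e X_i) X̄_j + (∂_e g_ij) X_i
conj(D_e X_j) + g_ij D_e X_i conj(D_e X_j)` [here `D_e D̄_e g_ij = ∂_e ∂̄_e g_ij`, as in LEVK], and
`D̄_e G(a,s) = (∂̄_e g_ij) A_i X̄_j + g_ij A_i conj(D_e X_j)`. The difference is `2 Re D̄_e G(a,s) + G(a,a)`, so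
`lev (sqT g σ) x e = Qcv g v x c s a`. Second part: `c = s`, then `e = X(x) = σ(x)` (and `s = 0` is trivial). -/
def S_CVK : Prop := ∀ {b k : ℕ} {Φ : Cn (b + k) → ℝ} {W : Set (Cn (b + k))}
  {L : Cn (b + k) →ₗ[ℂ] Cn k} {w : Fin b → Cn (b + k)} {v : Fin k → Cn (b + k) → Cn (b + k)},
  KFr Φ W L w v → ∀ g : Cn (b + k) → Matrix (Fin (b + k)) (Fin (b + k)) ℂ,
  (∀ i j, ContDiffOn ℝ ∞ (fun x => g x i j) W) → (∀ x ∈ W, (g x).PosDef) →
  (CvG Φ g W → ∀ x ∈ W, ∀ c s a : Cn k, 0 ≤ Qcv g v x c s a) ∧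
  (CvH Φ g W → ∀ x ∈ W, ∀ s a : Cn k, 0 ≤ Qcv g v x s s a)

/-- EXG. Torsion and `∂∂̄` of the metric in frames. USES: WIRT, DERK.
PROOF. `TRN α γ δ = D_α G_γδ - D_γ G_αδ = ∑ v_α i v_γ m conj(v_δ l) (cd i g_ml - cd m g_il)`: the derivatives of
`conj(v_δ)` vanish and those of `v_γ`, `v_α` cancel (`D_α v_γ = D_γ v_α`). Apply `D̄_β`: the derivatives of `v_α, v_γ`
vanish; `D̄_β conj(v_δ l) = conj(D_β v_δ l)` is symmetric in `β, δ` and cancels in the difference. -/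
def S_EXG : Prop := ∀ {b k : ℕ} {Φ : Cn (b + k) → ℝ} {W : Set (Cn (b + k))}
  {L : Cn (b + k) →ₗ[ℂ] Cn k} {w : Fin b → Cn (b + k)} {v : Fin k → Cn (b + k) → Cn (b + k)},
  KFr Φ W L w v → ∀ g : Cn (b + k) → Matrix (Fin (b + k)) (Fin (b + k)) ℂ,
  (∀ i j, ContDiffOn ℝ ∞ (fun x => g x i j) W) → ∀ x ∈ W, ∀ α γ,
    (∀ δ, TRN g v x α γ δ = ∑ i, ∑ m, ∑ l, v α x i * v γ x m * conj (v δ x l) *
      (cd i (fun y => g y m l) x - cd m (fun y => g y i l) x)) ∧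
    ∀ β δ, Dvb (v β) (fun y => TRN g v y α γ δ) x - Dvb (v δ) (fun y => TRN g v y α γ β) x =
      ∑ i, ∑ j, ∑ m, ∑ l, v α x i * conj (v β x j) * v γ x m * conj (v δ x l) *
        (cd i (cdb j fun y => g y m l) x - cd m (cdb j fun y => g y i l) x -
          cd i (cdb l fun y => g y m j) x + cd m (cdb l fun y => g y i j) x)

/-- TORF. Torsion and flatness. USES: WIRT, DERK, LDG.
PROOF. `D̄_β D_α G_γδ = D_α D̄_β G_γδ = ∑ p q D_α G_γq (G⁻¹) q p D̄_β G_pδ` by the vanishing of `CRV`. So the left side is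
`∑ p q (D_α G_γq - D_γ G_αq) (G⁻¹) q p (D̄_β G_pδ - D̄_δ G_pβ)` and `D̄_β G_pδ - D̄_δ G_pβ = conj (D_β G_δp - D_δ G_βp) =
conj (TRN β δ p)`. -/
def S_TORF : Prop := ∀ {b k : ℕ} {Φ : Cn (b + k) → ℝ} {W : Set (Cn (b + k))}
  {L : Cn (b + k) →ₗ[ℂ] Cn k} {w : Fin b → Cn (b + k)} {v : Fin k → Cn (b + k) → Cn (b + k)},
  KFr Φ W L w v → ∀ g : Cn (b + k) → Matrix (Fin (b + k)) (Fin (b + k)) ℂ,
  (∀ i j, ContDiffOn ℝ ∞ (fun x => g x i j) W) → (∀ x ∈ W, (g x).PosDef) → ∀ x ∈ W,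
  (∀ α β γ δ, CRV g v x α β γ δ = 0) → ∀ α β γ δ,
    Dvb (v β) (fun y => TRN g v y α γ δ) x - Dvb (v δ) (fun y => TRN g v y α γ β) x =
      ∑ p, ∑ q, TRN g v x α γ q * (gram g v x)⁻¹ q p * conj (TRN g v x β δ p)

/-! ## C. Stokes -/

/-- KES. `H + s LM Φ` is a Kähler metric. USES: WIRT, WCH, LMF.
PROOF. `LM Φ` is Hermitian, semidefinite (`lev ≥ 0`), smooth and closed (`LMF`); for an arrow `τ` the function
`Φ - Φ ∘ τ` is pluriharmonic (`pot`, `WCH`), so `hermi (LM Φ (τ x)) (Dτ u) (Dτ u') = hermi (LM Φ x) u u'`. -/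
def S_KES : Prop := ∀ {b k : ℕ} {T : Set (Cn (b + k))} {G : Type u} [Group G]
  {R : G → Cn (b + k) → Cn (b + k) → Prop}
  {H : Cn (b + k) → Matrix (Fin (b + k)) (Fin (b + k)) ℂ} {Φ : Cn (b + k) → ℝ}
  {g : Cn (b + k) → Matrix (Fin (b + k)) (Fin (b + k)) ℂ}, FrT T R H Φ g →
  (∀ s : ℝ, 0 ≤ s → KEt T R fun x => H x + (s : ℂ) • LM Φ x) ∧
  ∀ U τ, Arr R U τ → ∀ x ∈ U, ∀ e e',
    hermi (LM Φ (τ x)) (fderiv ℂ τ x e) (fderiv ℂ τ x e') = hermi (LM Φ x) e e'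

/-- BNDK. Bounds on compact sets. USES: LMF, KFE, KFB (and the proof of LIMK).
PROOF. By compactness it is enough to bound near each `x₀ ∈ T`. Take a frame on a neighbourhood `W'` (KFE) and a
compact neighbourhood of `x₀` in it. `det (H + sθ) / s^b = det N_s / |det P|²` with `N_s` as in LIMK, whose entries
are bounded for `s ≥ 1`. `H + sθ ≥ H ≥ c > 0` on the compact set, so `|(H + sθ)⁻¹| ≤ 1/c`. -/
def S_BNDK : Prop := ∀ {b k : ℕ} {T : Set (Cn (b + k))} {G : Type u} [Group G]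
  {R : G → Cn (b + k) → Cn (b + k) → Prop}
  {H : Cn (b + k) → Matrix (Fin (b + k)) (Fin (b + k)) ℂ} {Φ : Cn (b + k) → ℝ}
  {g : Cn (b + k) → Matrix (Fin (b + k)) (Fin (b + k)) ℂ}, FrT T R H Φ g → ∀ C ⊆ T, IsCompact C →
  ∃ B : ℝ, ∀ x ∈ C, ∀ s : ℝ, 1 ≤ s → ‖(H x + (s : ℂ) • LM Φ x).det‖ ≤ B * s ^ b ∧
    ∀ j l, ‖(H x + (s : ℂ) • LM Φ x)⁻¹ j l‖ ≤ B

/-- The invariant densities with integral zero. -/
def Dz {n : ℕ} (T : Set (Cn n)) {G : Type u} (R : G → Cn n → Cn n → Prop) (κ F : Cn n → ℝ) :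
    Prop :=
  ContinuousOn F T ∧ (∀ U τ, Arr R U τ → ∀ x ∈ U, F x = F (τ x) * ‖(fderiv ℂ τ x).det‖ ^ 2) ∧
    ∫ x in T, κ x * F x = 0

/-- ST1. The first Stokes formula: the integral of `i∂∂̄u ∧ ω^(k-1) ∧ θ^b` vanishes. USES: LMF, LIMK, KFE,
KFB, LEVK, KES, BNDK, DETI, LMID.
PROOF. For `s ≥ 0` put `P_s x := det(H_s) tr(H_s⁻¹ LM u)` (real), `H_s = H + s LM Φ`. `LMID` for `KEt T R H_s` (KES):
`∫ κ P_s = 0`, and `P_s x = P_s (τ x) ‖det Dτ‖²` (`LMID` (2) and `DETI`). Define `F x := lim_{s → ∞} s^(-b) P_s x`: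
it exists by `LIMK` at every `x` (frames exist by `KFE`), and in any frame `F x = dens(x) Re ∑_{j l} K_jl (LM u)_lj`,
`K_jl = ∑ conj(v_α j) (𝒢⁻¹) α β v_β l`, so `F x = dens Re ∑ (𝒢⁻¹) α β hermi (LM u) (v_β) (v_α) = dens Re tr (𝒢⁻¹ LF)` (LEVK):
continuous. Dominated convergence on the compact set `tsupport κ` (`BNDK`, `LM u` bounded there). -/
def S_ST1 : Prop := ∀ {b k : ℕ} {T : Set (Cn (b + k))} {G : Type u} [Group G]
  {R : G → Cn (b + k) → Cn (b + k) → Prop}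
  {H : Cn (b + k) → Matrix (Fin (b + k)) (Fin (b + k)) ℂ} {Φ : Cn (b + k) → ℝ}
  {g : Cn (b + k) → Matrix (Fin (b + k)) (Fin (b + k)) ℂ}, FrT T R H Φ g → ∀ κ, IsPUE T R κ →
  ∀ u : Cn (b + k) → ℝ, InvF T R u → ∃ F, Dz T R κ F ∧
  ∀ (W : Set (Cn (b + k))) (L : Cn (b + k) →ₗ[ℂ] Cn k) (w : Fin b → Cn (b + k))
    (v : Fin k → Cn (b + k) → Cn (b + k)), KFr Φ W L w v → W ⊆ T → ∀ x ∈ W,
    F x = dens Φ H w v x * (Matrix.trace ((gram H v x)⁻¹ * LF v u x)).re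

/-- The contraction of `∂∂̄g` with the second cofactors of `H`. -/
noncomputable def E2 {n : ℕ} (H g : Cn n → Matrix (Fin n) (Fin n) ℂ) (x : Cn n) : ℂ :=
  (H x).det * ∑ j, ∑ i, ∑ l, ∑ m, ((H x)⁻¹ j i * (H x)⁻¹ l m - (H x)⁻¹ l i * (H x)⁻¹ j m) *
    cd i (cdb j fun y => g y m l) x

/-- ST2A. The second Stokes formula for a Kähler metric. USES: WIRT, WCH, ARRB, DETI, DIVC (see the proof of
LMID in `Helper13/SP/LMID.lean`, part (a)).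
PROOF. `B j i l m := det H (K j i K l m - K l i K j m)`, `K = H⁻¹`. (a) `∑ i cd i (B j i l m) = 0` (proof of LMID).
(b) `Y^i := ∑ j l m B j i l m cdb j (g m l)`; `B` is antisymmetric in `j, l`, and `cdb j (g m l) - cdb l (g m j)` is
natural for arrows (the term with `cdb j (conj (∂_l τ_b))` is symmetric), so `Y` satisfies the hypothesis of `DIVC`.
(c) `∑ i cd i (Y^i) = E2 H g`. So the integral of `κ E2` vanishes. Naturality of `E2`: `B` is antisymmetric in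
`j, l` and in `i, m`, so only the antisymmetrization of `cd i cdb j g_ml` in both pairs matters, which is natural; or:
`E2 = div Y` and the divergence of an arrow-invariant vector density is an invariant density. -/
def S_ST2A : Prop := ∀ {n : ℕ} {T : Set (Cn n)} {G : Type u} [Group G]
  {R : G → Cn n → Cn n → Prop} {H : Cn n → Matrix (Fin n) (Fin n) ℂ}
  {g : Cn n → Matrix (Fin n) (Fin n) ℂ}, KEt T R H → (∀ x ∈ T, (g x).IsHermitian) →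
  (∀ i j, ContDiffOn ℝ ∞ (fun x => g x i j) T) →
  (∀ U τ, Arr R U τ → ∀ x ∈ U, ∀ e e',
    hermi (g (τ x)) (fderiv ℂ τ x e) (fderiv ℂ τ x e') = hermi (g x) e e') →
  ∀ κ, IsPUE T R κ → ∫ x in T, κ x * (E2 H g x).re = 0 ∧
  ∀ U τ, Arr R U τ → ∀ x ∈ U, (E2 H g x).re = (E2 H g (τ x)).re * ‖(fderiv ℂ τ x).det‖ ^ 2

/-- ST2. The second Stokes formula: the integral of `i∂∂̄ω_g ∧ ω^(k-2) ∧ θ^b` vanishes. USES: LMF, LIMK,
KFE, KFB, EXG, KES, BNDK, ST2A.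
PROOF. As ST1, with `P_s := Re E2 (H_s) g`. In a frame the limit of `s^(-b) P_s` is `dens Re ∑ ((𝒢⁻¹) β α (𝒢⁻¹) δ γ -
(𝒢⁻¹) δ α (𝒢⁻¹) β γ) X α β γ δ`, `X α β γ δ = ∑ v_α i conj(v_β j) v_γ m conj(v_δ l) cd i (cdb j g_ml)`. The coefficient is
antisymmetric in `α, γ` and in `β, δ`, so this is `dens/4 Re ∑ (...) E`, `E α β γ δ := X αβγδ - X γβαδ - X αδγβ + X γδαβ`
(the right side of EXG (2)), which is antisymmetric in the same pairs: `= dens/2 Re ∑ (𝒢⁻¹) β α (𝒢⁻¹) δ γ E α β γ δ`. -/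
def S_ST2 : Prop := ∀ {b k : ℕ} {T : Set (Cn (b + k))} {G : Type u} [Group G]
  {R : G → Cn (b + k) → Cn (b + k) → Prop}
  {H : Cn (b + k) → Matrix (Fin (b + k)) (Fin (b + k)) ℂ} {Φ : Cn (b + k) → ℝ}
  {g : Cn (b + k) → Matrix (Fin (b + k)) (Fin (b + k)) ℂ}, FrT T R H Φ g → ∀ κ, IsPUE T R κ →
  ∃ F, Dz T R κ F ∧
  ∀ (W : Set (Cn (b + k))) (L : Cn (b + k) →ₗ[ℂ] Cn k) (w : Fin b → Cn (b + k))
    (v : Fin k → Cn (b + k) → Cn (b + k)), KFr Φ W L w v → W ⊆ T → ∀ x ∈ W,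
    F x = dens Φ H w v x * (∑ α, ∑ β, ∑ γ, ∑ δ, (gram H v x)⁻¹ β α * (gram H v x)⁻¹ δ γ *
      (Dvb (v β) (fun y => TRN g v y α γ δ) x -
        Dvb (v δ) (fun y => TRN g v y α γ β) x)).re / 2

/-- POSK. A nonnegative invariant density with integral zero vanishes.
PROOF. `κ F ≥ 0` is continuous on `T` with compact support in `T` and integral `0`, so it vanishes on `T`
(`Continuous` + `ae` on an open set). For `x ∈ T` some arrow `(γ, x, y)` has `κ y > 0` (`IsPUE.sum`); so `F y = 0`;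
with a local arrow `τ` (`Et.loc`), `F x = F y ‖det Dτ‖² = 0`. -/
def S_POSK : Prop := ∀ {n : ℕ} {T : Set (Cn n)} {G : Type u} [Group G]
  {R : G → Cn n → Cn n → Prop}, Et T R → ∀ κ, IsPUE T R κ → ∀ F, Dz T R κ F →
  (∀ x ∈ T, 0 ≤ F x) → ∀ x ∈ T, F x = 0

/-- UGL. The global function `u = log (ω_g^k ∧ θ^b / Ω)`. USES: WCH, LMF, LIMK, KFE, KFB, KES.
PROOF. By `LIMK` (with `g` in place of `H`) `dens Φ g w v x = lim s^(-b) Re det (g + s LM Φ)(x)` does not depend on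
the frame; define `u x := log (this limit) - Φ x`. Smooth by `KFE`, `KFB`. Invariance: `det (g + s LM Φ)(x) =
det (g + s LM Φ)(τ x) ‖det Dτ‖²` (`ginv`, KES) and `pot`; for `R γ x y` take the local arrow of `Et.loc`. -/
def S_UGL : Prop := ∀ {b k : ℕ} {T : Set (Cn (b + k))} {G : Type u} [Group G]
  {R : G → Cn (b + k) → Cn (b + k) → Prop}
  {H : Cn (b + k) → Matrix (Fin (b + k)) (Fin (b + k)) ℂ} {Φ : Cn (b + k) → ℝ}
  {g : Cn (b + k) → Matrix (Fin (b + k)) (Fin (b + k)) ℂ}, FrT T R H Φ g →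
  ∃ u : Cn (b + k) → ℝ, InvF T R u ∧
  ∀ (W : Set (Cn (b + k))) (L : Cn (b + k) →ₗ[ℂ] Cn k) (w : Fin b → Cn (b + k))
    (v : Fin k → Cn (b + k) → Cn (b + k)), KFr Φ W L w v → W ⊆ T → ∀ x ∈ W, u x = uf Φ g w v x

/-- The conclusion of the first step in a frame. -/
def Flt {b k : ℕ} (Φ : Cn (b + k) → ℝ)
    (g : Cn (b + k) → Matrix (Fin (b + k)) (Fin (b + k)) ℂ) (T : Set (Cn (b + k))) : Prop :=
  ∀ (W : Set (Cn (b + k))) (L : Cn (b + k) →ₗ[ℂ] Cn k) (w : Fin b → Cn (b + k))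
    (v : Fin k → Cn (b + k) → Cn (b + k)), KFr Φ W L w v → W ⊆ T → ∀ x ∈ W,
    (∀ α, Tm (v α) x = 0) ∧ ∀ α β γ δ, CRV g v x α β γ δ = 0

/-- FRA1. First step, Griffiths case. USES: WIRT, LMF, LAK, TRP, ALGG, KFE, KFB, DERK, LDM, LDG, CVK, PUE,
ST1, POSK, UGL.
PROOF. In a frame `u = log mdet + log det gram - 2 log |det PM| - Φ` (`PM` has constant determinant), so by LDM, LDG
`(LF v u) α β = tr(T_α T̄_β) - Ric α β`, `Ric α β = ∑ (G⁻¹) δ γ CRV α β γ δ`. For `c ∈ ℂᵏ`, with `T_c := ∑ c_α T_α`: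
`hermi (LF v u) c c = tr(T_c T̄_c) - hermi Ric c c`, both parts real and `≥ 0` (LAK for `X = T_c`: `L` kills the
columns and `Hᵗ T_c` is symmetric by DERK; ALGG with `D1, D2` from the frame, hypothesis from CVK and
LDG (1)). So the function `F` of ST1 (for this `u`) is `≥ 0` (TRP, `dens > 0`), hence `0` (POSK), so
`LF v u = 0` (TRP), both parts vanish: `T_c = 0` for all `c`, and `hermi Ric c c = 0` for all `c`, so `Ric = 0`
(polarization), `CRV = 0` (ALGG). -/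
def S_FRA1 : Prop := ∀ {b k : ℕ} {T : Set (Cn (b + k))} {G : Type u} [Group G]
  {R : G → Cn (b + k) → Cn (b + k) → Prop}
  {H : Cn (b + k) → Matrix (Fin (b + k)) (Fin (b + k)) ℂ} {Φ : Cn (b + k) → ℝ}
  {g : Cn (b + k) → Matrix (Fin (b + k)) (Fin (b + k)) ℂ}, FrT T R H Φ g → CvG Φ g T → Flt Φ g T

/-- FRA2. First step, Kähler case: `g = H`. USES: WIRT, LMF, LAK, TRP, ALGH, KFE, KFB, DERK, LDM, LDG,
CVK, EXG, PUE, ST1, POSK, UGL.
PROOF. `g = H` is closed, so `TRN = 0` by EXG (1): `D_α G_γδ = D_γ G_αδ`, and applying `D̄_β`: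
`D_α D̄_β G_γδ = D_γ D̄_β G_αδ` (DERK (4)). As in FRA1, `tr (G⁻¹ LF v u) = tr (G⁻¹ (tr(T_α T̄_β))_{αβ}) - Scal`,
`Scal = ∑ (G⁻¹) β α (G⁻¹) δ γ CRV α β γ δ` (here `gram H v = G`); both parts are `≥ 0` (TRP with LAK; ALGH, whose
hypothesis is CVK (2)). So `F ≥ 0`, `F = 0`, both parts vanish: the matrix `(tr(T_α T̄_β))` vanishes (TRP), so
`T_α = 0`, and `CRV = 0` (ALGH). -/
def S_FRA2 : Prop := ∀ {b k : ℕ} {T : Set (Cn (b + k))} {G : Type u} [Group G]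
  {R : G → Cn (b + k) → Cn (b + k) → Prop}
  {H : Cn (b + k) → Matrix (Fin (b + k)) (Fin (b + k)) ℂ} {Φ : Cn (b + k) → ℝ},
  FrT T R H Φ H → CvH Φ H T → Flt Φ H T

/-- FRB. The function `u` is constant on the leaves. USES: WIRT, TRP, KFE, KFB, DERK, LDM, LDG, PUE, ST1,
POSK, UGL.
PROOF. In a frame `DD v α β u = tr(T_α T̄_β) - Ric α β = 0` by `Flt` (LDM, LDG). Apply ST1 to `u²` (`InvF`):
`DD v α β (u²) = 2 u DD u + 2 (D_α u)(D̄_β u)` (`D̄_β u² = 2 u D̄_β u`), so `LF v (u²) = 2 (D_α u conj(D_β u))_{αβ}`, which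
is semidefinite: `F ≥ 0`, so `F = 0`, so the matrix vanishes (TRP) and `D_α u = 0`. -/
def S_FRB : Prop := ∀ {b k : ℕ} {T : Set (Cn (b + k))} {G : Type u} [Group G]
  {R : G → Cn (b + k) → Cn (b + k) → Prop}
  {H : Cn (b + k) → Matrix (Fin (b + k)) (Fin (b + k)) ℂ} {Φ : Cn (b + k) → ℝ}
  {g : Cn (b + k) → Matrix (Fin (b + k)) (Fin (b + k)) ℂ}, FrT T R H Φ g → Flt Φ g T →
  ∀ (W : Set (Cn (b + k))) (L : Cn (b + k) →ₗ[ℂ] Cn k) (w : Fin b → Cn (b + k))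
    (v : Fin k → Cn (b + k) → Cn (b + k)), KFr Φ W L w v → W ⊆ T → ∀ x ∈ W, ∀ α,
    Dv (v α) (fun y => ((uf Φ g w v y : ℝ) : ℂ)) x = 0

/-- FRC. The leaf metric is Kähler. USES: TAUP, KFB, TORF, PUE, ST2, POSK.
PROOF. By `Flt` and TORF the function `F` of ST2 is `dens/2 Re ∑ (𝒢⁻¹) β α (𝒢⁻¹) δ γ ∑ TRN α γ q (G⁻¹) q p
conj(TRN β δ p) ≥ 0` (TAUP), so `F = 0` and `TRN = 0`. -/
def S_FRC : Prop := ∀ {b k : ℕ} {T : Set (Cn (b + k))} {G : Type u} [Group G]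
  {R : G → Cn (b + k) → Cn (b + k) → Prop}
  {H : Cn (b + k) → Matrix (Fin (b + k)) (Fin (b + k)) ℂ} {Φ : Cn (b + k) → ℝ}
  {g : Cn (b + k) → Matrix (Fin (b + k)) (Fin (b + k)) ℂ}, FrT T R H Φ g → Flt Φ g T →
  ∀ (W : Set (Cn (b + k))) (L : Cn (b + k) →ₗ[ℂ] Cn k) (w : Fin b → Cn (b + k))
    (v : Fin k → Cn (b + k) → Cn (b + k)), KFr Φ W L w v → W ⊆ T → ∀ x ∈ W, ∀ α γ δ,
    TRN g v x α γ δ = 0

/-! ## D. The manifold -/

/-- MTK. An étale relation for `M` which contains a given parametrization. USES: PARB (its proof for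
`DataK`, see `Helper10/SP/GoalsC.lean`), `S_KET` (proof).
PROOF. `r > 0` with `ball x₀ r ⊆ V`. The compact set of `OrbAction.cocompact` is covered by finitely many sets
`ψ_i (ball (y_i) ρ_i)`, `ψ_i = (chartAt p_i).symm`, with closed balls in the targets. `n = b + k ≥ 1`: choose centres
`c_i = x₀ + (large multiple of i) e₀` such that the balls `ball (c_i) (2ρ_i)` and `ball x₀ r` are disjoint;
`T := ball x₀ r ∪ ⋃ ball (c_i) (2ρ_i)`, `E := ψ` on `ball x₀ r` and `E y := ψ_i (y_i + (y - c_i))` on `ball (c_i) (2ρ_i)`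
(`2ρ_i` chosen so that the closed double ball is in the target). `Par E T`. `KEt`: exactly as `S_KET` of SP (`loc` by the
inverse function theorem, `closed` by continuity and `T2`, `fin` by `DataK.proper`, `coc` with
`C = ⋃ closedBall (c_i) ρ_i`, `conn` by connectedness of `M`; metric `pm h E`). `FrT`: `smP`, `pot`, `rank` from `DataK`,
the statements on `pm g E` as those on `pm h E`. -/
def S_MTK : Prop := ∀ {b k : ℕ} {G : Type u} {M : Type v} [Group G] [MulAction G M]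
  [TopologicalSpace M] [T2Space M] [ConnectedSpace M] [ChartedSpace (Fin (b + k) → ℂ) M]
  [IsManifold 𝓘(ℂ, Fin (b + k) → ℂ) ω M] {h g : M → Matrix (Fin (b + k)) (Fin (b + k)) ℂ}
  {v : M → ℝ}, 0 < k → DataK b k G M h v → HermMetric (b + k) M g →
  (∀ γ : G, InvMetric (b + k) g (fun y : M => γ • y)) →
  ∀ (V : Set (Cn (b + k))) (ψ : Cn (b + k) → M), Par (b + k) ψ V → ∀ x₀ ∈ V,
  ∃ (r : ℝ) (T : Set (Cn (b + k))) (E : Cn (b + k) → M), 0 < r ∧ ball x₀ r ⊆ V ∧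
    ball x₀ r ⊆ T ∧ EqOn E ψ (ball x₀ r) ∧ Par (b + k) E T ∧
    FrT T (RelT (G := G) T E) (pm (b + k) h E) (lpot (b + k) v E) (pm (b + k) g E)

/-- CVT. Transfer of the curvature hypotheses.
PROOF. `sqn g E σ z = sqT (pm g E) σ z` (sesquilinearity: `dvec E z (σ z) = ∑ i, σ z i • dvec E z (Pi.single i 1)`), so
`lev` agrees (the functions are equal everywhere); an entire `σ` is differentiable on `T`. -/
def S_CVT : Prop := ∀ {n : ℕ} {M : Type v} [TopologicalSpace M] [ChartedSpace (Fin n → ℂ) M]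
  {g : M → Matrix (Fin n) (Fin n) ℂ} {v : M → ℝ} (T : Set (Cn n)) (E : Cn n → M), Par n E T →
  (GNeg n M g v → CvG (lpot n v E) (pm n g E) T) ∧ (HNeg n M g v → CvH (lpot n v E) (pm n g E) T)

/-- FRD. The conclusion in an arbitrary parametrization. USES: MTK, CVT, FRA1, FRA2, FRB, FRC, EXG, KFB.
PROOF. Griffiths case: MTK for `h`, `g`; Kähler case: `DataK b k G M g v` holds (replace `h` by `g`), MTK for
`g`, `g`. In the first case `CvG` (CVT), FRA1; in the second `CvH`, FRA2. Then FRB and FRC. The given frame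
near `x` in the chart `ψ` is (after restriction to `ball x r ∩ W`) a frame for `lpot v E`, because `E = ψ` on
`ball x r`: all expressions (`lpot`, `pm`, `gram`, derivatives at `x`) agree since the functions agree near `x`
(`jac`, `dvec` are local). `DifferentiableOn`: `Tm = 0` means `cdb l (v α j) = 0`, `WIRT`. -/
def S_FRD : Prop := ∀ {b k : ℕ} {G : Type u} {M : Type v} [Group G] [MulAction G M]
  [TopologicalSpace M] [T2Space M] [ConnectedSpace M] [ChartedSpace (Fin (b + k) → ℂ) M]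
  [IsManifold 𝓘(ℂ, Fin (b + k) → ℂ) ω M] {h g : M → Matrix (Fin (b + k)) (Fin (b + k)) ℂ}
  {v : M → ℝ}, 0 < k → DataK b k G M h v → FrontHyp b k G M g v →
  ∀ (V : Set (Cn (b + k))) (ψ : Cn (b + k) → M), Par (b + k) ψ V →
  ∀ (W : Set (Cn (b + k))) (L : Cn (b + k) →ₗ[ℂ] Cn k) (w : Fin b → Cn (b + k))
    (e : Fin k → Cn (b + k) → Cn (b + k)), KFr (lpot (b + k) v ψ) W L w e → W ⊆ V →
    (∀ α, DifferentiableOn ℂ (e α) W) ∧ ∀ x ∈ W,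
    (∀ α γ δ, TRN (pm (b + k) g ψ) e x α γ δ = 0) ∧
    (∀ α β γ δ, CRV (pm (b + k) g ψ) e x α β γ δ = 0) ∧
    ∀ α, Dv (e α) (fun y => ((uf (lpot (b + k) v ψ) (pm (b + k) g ψ) w e y : ℝ) : ℂ)) x = 0

/-- STRK. Straightening of commuting holomorphic vector fields.
PROOF. `x₀(z) := p + ∑ z_i w_i`. Let the `ξ_α` be bounded and Lipschitz on `closedBall p (2ρ) ⊆ W`. As in `S_STR` of
`Helper10/SP/GoalsA.lean`: the map `(𝒫 f)(z,t) := x₀(z) + ∫₀¹ ∑ t_α ξ_α(f(z, r t)) dr` is a contraction on the continuous maps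
from the polydisc of radius `r` to `closedBall p (2ρ)`, preserves the maps holomorphic inside; the fixed point `σ`
is holomorphic and `y(s) := σ(z, s t)` satisfies `y' = ∑ t_α ξ_α(y)`, `y(0) = x₀(z)` (substitution in the integral).
Let `J_β(s) := s (∂_{t_β} σ)(z, s t) = ∂_{t_β} (σ(z, s t))`. Differentiating the equation `σ(z, s t) = x₀ + ∫₀ˢ ∑ t_α ξ_α(σ(z, r t)) dr`
by `t_β`: `J_β' = ξ_β(y) + ∑ t_α Dξ_α(y) J_β`, `J_β(0) = 0`. And `(s ξ_β(y))' = ξ_β(y) + s Dξ_β(y) (∑ t_α ξ_α(y)) = ξ_β(y) +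
s ∑ t_α Dξ_α(y) ξ_β(y)` by commutation. So `Y := J_β - s ξ_β(y)` satisfies a linear equation `Y' = ∑ t_α Dξ_α(y) Y`,
`Y(0) = 0`: `Y = 0` (Gronwall, `ODE_solution_unique`). At `s = 1`: `∂_{t_β} σ = ξ_β ∘ σ`. `Dσ(0) = (w, ξ(p))` is invertible
(`L ξ_α = e_α`, `L w = 0`, `w` independent), so by the inverse function theorem `σ` is injective with invertible
differential near `0`. -/
def S_STRK : Prop := ∀ {b k : ℕ} (W : Set (Cn (b + k))), IsOpen W → ∀ p ∈ W,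
  ∀ (L : Cn (b + k) →ₗ[ℂ] Cn k) (w : Fin b → Cn (b + k)) (ξ : Fin k → Cn (b + k) → Cn (b + k)),
  LinearIndependent ℂ w → (∀ i, L (w i) = 0) → (∀ x ∈ W, ∀ α, L (ξ α x) = Pi.single α 1) →
  (∀ α, DifferentiableOn ℂ (ξ α) W) →
  (∀ x ∈ W, ∀ α β, fderiv ℂ (ξ β) x (ξ α x) = fderiv ℂ (ξ α) x (ξ β x)) →
  ∃ r > 0, ∃ σ : Cn (b + k) → Cn (b + k),
    DifferentiableOn ℂ σ (prodK (ball 0 r) (ball 0 r)) ∧
    InjOn σ (prodK (ball (0 : Cn b) r) (ball (0 : Cn k) r)) ∧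
    MapsTo σ (prodK (ball (0 : Cn b) r) (ball (0 : Cn k) r)) W ∧ σ 0 = p ∧
    ∀ x ∈ prodK (ball (0 : Cn b) r) (ball (0 : Cn k) r), (fderiv ℂ σ x).det ≠ 0 ∧
      ∀ α, fderiv ℂ σ x (ef b α) = ξ α (σ x)

/-- FRE. Foliated charts. USES: WIRT, WCH, LMF, PARB (first part, for `DataK`), KFE, DERK, FRD, STRK.
PROOF. `ψ₀ := (chartAt p).symm` on the target, `x₀ = chartAt p p`, `Φ₀ = lpot v ψ₀` (`CanMetric.smooth`), `DataK.rank`: KFE
gives a frame `e` on `W' ∋ x₀`, holomorphic by FRD, commuting by DERK (3) (`Dv (e α) (e β j) = 2 (fderiv ℂ (e β) x (e α x)) j` for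
holomorphic fields). STRK: `σ`. `ψ := ψ₀ ∘ σ`: `Par`, injective (`ψ₀` is injective on the target), `ψ 0 = p`;
`lev (lpot v ψ) x e' = lev Φ₀ (σ x) (Dσ e')` (`WCH`: the potentials differ by `log |det Dσ|²`), which vanishes iff `Dσ e'` is in the
kernel `span (e_α (σ x)) = span (Dσ (ef α))` iff `e' ∈ span (ef α)` iff `base e' = 0`. -/
def S_FRE : Prop := ∀ {b k : ℕ} {G : Type u} {M : Type v} [Group G] [MulAction G M]
  [TopologicalSpace M] [T2Space M] [ConnectedSpace M] [ChartedSpace (Fin (b + k) → ℂ) M]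
  [IsManifold 𝓘(ℂ, Fin (b + k) → ℂ) ω M] {h g : M → Matrix (Fin (b + k)) (Fin (b + k)) ℂ}
  {v : M → ℝ}, 0 < k → DataK b k G M h v → FrontHyp b k G M g v → ∀ p : M,
  ∃ r > 0, ∃ ψ : Cn (b + k) → M, FolPar v (ball (0 : Cn b) r) (ball (0 : Cn k) r) ψ ∧
    InjOn ψ (prodK (ball (0 : Cn b) r) (ball (0 : Cn k) r)) ∧ ψ 0 = p

/-- FRF. The leaf metric in foliated charts. USES: WIRT, LMF, KFB, DERK, LDG, FRD.
PROOF. On `W := prodK U Δ` the constant fields `e α := ef b α` with `L := fib`, `w i := Pi.single (Fin.castAdd k i) 1` form a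
kernel frame of `Φ = lpot v ψ` (`FolPar`; kernel of a semidefinite form). `gram (pm g ψ) e = gm g ψ`; `Dv (e α) = cd (Fin.natAdd b α)`,
`Dvb (e β) = cdb (Fin.natAdd b β)`. FRD: (kah) `TRN = 0`. (flat) `CRV = 0` says `D_i D̄_l G = (D_i G) G⁻¹ (D̄_l G)`, so
`D̄_l ((D_i G) G⁻¹) = (D̄_l D_i G) G⁻¹ - (D_i G) G⁻¹ (D̄_l G) G⁻¹ = 0`. (vol) `uf = log mdet + log det G - const - Φ` and
`D_i mdet = 0`: `D_i (LM Φ j l) = - ∑ m Bm m j LM m l = 0` (DERK (6); the frame is constant, `Bm = 0`). `smooth`,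
`posDef`: KFB, `HermMetric` (the real part of `herm (u, v)` is the imaginary part of `herm (I u, v)`). -/
def S_FRF : Prop := ∀ {b k : ℕ} {G : Type u} {M : Type v} [Group G] [MulAction G M]
  [TopologicalSpace M] [T2Space M] [ConnectedSpace M] [ChartedSpace (Fin (b + k) → ℂ) M]
  [IsManifold 𝓘(ℂ, Fin (b + k) → ℂ) ω M] {h g : M → Matrix (Fin (b + k)) (Fin (b + k)) ℂ}
  {v : M → ℝ}, 0 < k → DataK b k G M h v → FrontHyp b k G M g v →
  ∀ (U : Set (Cn b)) (Δ : Set (Cn k)) (ψ : Cn (b + k) → M), IsOpen U → IsOpen Δ →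
    FolPar v U Δ ψ → FlatG (prodK U Δ) (gm g ψ) (lpot (b + k) v ψ)

/-- FRONT from FRE and FRF. -/
theorem front (hE : S_FRE.{u, v}) (hF : S_FRF.{u, v}) : S_FRONT.{u, v} := by
  intro b k G M _ _ _ _ _ _ _ h g v hk hd hf
  exact ⟨hf.1, hf.2.1, fun p => hE hk hd hf p, fun U Δ ψ hU hΔ hψ => hF hk hd hf U Δ ψ hU hΔ hψ⟩

end Pool.Agent.Helper15.RK
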